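import Pool.Agent.Lib.MP_105042_an.Morrey

open MeasureTheory Metric Filter Topology
open scoped ContDiff ENNReal NNReal

namespace Pool.Agent.Results.MP_105042_an.VanishingMorreyFails

open Pool.Agent.Lib.MP_105042_an

/-- real vectors with `k` entries and the Euclidean norm -/
abbrev Rv (k : ℕ) := EuclideanSpace ℝ (Fin k)

/-- `n × k` matrices with the Euclidean norm; the entry `(a, i)` stands for `∂ₐ uᵢ` -/
abbrev Mat (n k : ℕ) := EuclideanSpace ℝ (Fin n × Fin k)

/-- `φ` is smooth with compact support inside the open unit ball -/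
structure IsTest {n : ℕ} {F : Type} [NormedAddCommGroup F] [NormedSpace ℝ F] (φ : Rv n → F) : Prop where
  smooth : ContDiff ℝ ∞ φ
  compact : HasCompactSupport φ
  supp : tsupport φ ⊆ ball 0 1

/-- `G` is the weak gradient of `u` on the open unit ball -/
def IsWeakGrad {n k : ℕ} (u : Rv n → Rv k) (G : Rv n → Mat n k) : Prop :=
  ∀ φ : Rv n → ℝ, IsTest φ → ∀ (a : Fin n) (i : Fin k),
    ∫ x in ball 0 1, u x i * fderiv ℝ φ x (EuclideanSpace.single a 1)
      = - ∫ x in ball 0 1, G x (a, i) * φ x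

/-- `u` lies in the Sobolev space `W^{1,p}` of the open unit ball, with weak gradient `G` -/
def MemW1p {n k : ℕ} (p : ℝ≥0∞) (u : Rv n → Rv k) (G : Rv n → Mat n k) : Prop :=
  MemLp u p (volume.restrict (ball 0 1)) ∧ MemLp G p (volume.restrict (ball 0 1)) ∧ IsWeakGrad u G

/-- `u`, with weak gradient `G`, solves `Δu = Q(x, u, ∇u)` weakly in the open unit ball -/
def IsWeakSol {n k : ℕ} (Q : Rv n → Rv k → Mat n k → Rv k) (u : Rv n → Rv k) (G : Rv n → Mat n k) : Prop :=
  ∀ φ : Rv n → Rv k, IsTest φ →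
    - ∫ x in ball 0 1, ∑ a : Fin n, ∑ i : Fin k, G x (a, i) * (fderiv ℝ φ x (EuclideanSpace.single a 1)) i
      = ∫ x in ball 0 1, ∑ i : Fin k, Q x (u x) (G x) i * φ x i

/-- the Morrey quantity `r^{-(n-p)} ∫_{B_r(x₀)} |∇u|^p` -/
noncomputable def morrey {n k : ℕ} (p : ℝ) (G : Rv n → Mat n k) (x0 : Rv n) (r : ℝ) : ℝ :=
  1 / r ^ ((n:ℝ) - p) * ∫ x in ball x0 r, ‖G x‖ ^ p

/-- `u` agrees a.e. on the half ball with a continuous map -/
def HasContRep {n k : ℕ} (u : Rv n → Rv k) : Prop :=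
  ∃ v : Rv n → Rv k, ContinuousOn v (ball 0 (1/2)) ∧ u =ᵐ[volume.restrict (ball 0 (1/2))] v

/-- `u` agrees a.e. on the half ball with a Hölder continuous map -/
def HasHolderRep {n k : ℕ} (u : Rv n → Rv k) : Prop :=
  ∃ v : Rv n → Rv k, (∃ C α : ℝ≥0, 0 < α ∧ α < 1 ∧ HolderOnWith C α v (ball 0 (1/2))) ∧
    u =ᵐ[volume.restrict (ball 0 (1/2))] v

section
variable {n : ℕ} {N : ℕ} {eps : ℕ → ℝ} {i0 : Fin n}

/-- relabelling of the components -/
def ee (n : ℕ) : Fin (n + 2) ≃ Option (Option (Fin n)) :=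
  (finSuccEquiv (n + 1)).trans (Equiv.optionCongr (finSuccEquiv n))

/-- components of the solution -/
noncomputable def U (N : ℕ) (eps : ℕ → ℝ) (i0 : Fin n) : Option (Option (Fin n)) → Rv n → ℝ
  | none => fun x => x i0
  | some o => ws N eps i0 o

/-- components of the gradient -/
noncomputable def DU (N : ℕ) (eps : ℕ → ℝ) (i0 : Fin n) (a : Fin n) : Option (Option (Fin n)) → Rv n → ℝ
  | none => fun _ => if a = i0 then 1 else 0
  | some o => gs N eps i0 a o

/-- the solution -/
noncomputable def uu (N : ℕ) (eps : ℕ → ℝ) (i0 : Fin n) (x : Rv n) : Rv (n + 2) :=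
  WithLp.toLp 2 fun i => U N eps i0 (ee n i) x

/-- its gradient -/
noncomputable def GG (N : ℕ) (eps : ℕ → ℝ) (i0 : Fin n) (x : Rv n) : Mat n (n + 2) :=
  WithLp.toLp 2 fun ai => DU N eps i0 ai.1 (ee n ai.2) x

/-- cutoff in the target -/
noncomputable def chi (k : ℕ) : ContDiffBump (0 : Rv k) := ⟨2, 3, by norm_num, by norm_num⟩

/-- components of the nonlinearity -/
noncomputable def QQ (N : ℕ) (eps : ℕ → ℝ) (i0 : Fin n) :
    Option (Option (Fin n)) → Rv n → Rv (n + 2) → Mat n (n + 2) → ℝ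
  | none => fun _ _ _ => 0
  | some o => fun x y z =>
      - cc n N o * chi (n + 2) y * y ((ee n).symm (some o))
        * Xq N (fun o => y ((ee n).symm (some o))) (fun a o => z (a, (ee n).symm (some o)))
      + bs N eps i0 o x * ∑ a, (z (a, (ee n).symm none)) ^ 2

/-- the nonlinearity -/
noncomputable def Qf (N : ℕ) (eps : ℕ → ℝ) (i0 : Fin n) (x : Rv n) (y : Rv (n + 2)) (z : Mat n (n + 2)) :
    Rv (n + 2) :=
  WithLp.toLp 2 fun i => QQ N eps i0 (ee n i) x y z

lemma uu_sq (x : Rv n) : ‖uu N eps i0 x‖ ^ 2 = (x i0) ^ 2 + ∑ o, (ws N eps i0 o x) ^ 2 := by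
  rw [EuclideanSpace.norm_sq_eq]
  have h1 : ∑ i, ‖(uu N eps i0 x) i‖ ^ 2 = ∑ i, (U N eps i0 (ee n i) x) ^ 2 := by
    refine Finset.sum_congr rfl fun i _ => ?_
    rw [Real.norm_eq_abs, sq_abs]
    rfl
  rw [h1, (ee n).sum_comp (fun κ => (U N eps i0 κ x) ^ 2), Fintype.sum_option]
  rfl

lemma GG_sq (x : Rv n) : ‖GG N eps i0 x‖ ^ 2 = 1 + ∑ a, ∑ o, (gs N eps i0 a o x) ^ 2 := by
  rw [EuclideanSpace.norm_sq_eq]
  have h1 : ∑ i, ‖(GG N eps i0 x) i‖ ^ 2 = ∑ a, ∑ κ, (DU N eps i0 a κ x) ^ 2 := by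
    rw [Fintype.sum_prod_type]
    refine Finset.sum_congr rfl fun a _ => ?_
    rw [← (ee n).sum_comp (fun κ => (DU N eps i0 a κ x) ^ 2)]
    refine Finset.sum_congr rfl fun i _ => ?_
    rw [Real.norm_eq_abs, sq_abs]
    rfl
  rw [h1]
  simp_rw [Fintype.sum_option]
  rw [Finset.sum_add_distrib]
  congr 1
  simp [DU]

lemma uu_le (h : Good n N eps) {x : Rv n} (hx : x ∈ ball (0 : Rv n) 1) : ‖uu N eps i0 x‖ ≤ 2 := by
  have h1 : ‖x‖ < 1 := by simpa using hx
  have h2 := coord_le x i0
  have h3 : (x i0) ^ 2 ≤ 1 := (sq_le_one_iff_abs_le_one _).mpr (by linarith)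
  have h4 := sum_ws_sq_le (i0 := i0) h x
  have h5 := uu_sq (N := N) (eps := eps) (i0 := i0) x
  nlinarith [norm_nonneg (uu N eps i0 x)]

lemma measurable_uu (h : Good n N eps) : Measurable (uu N eps i0) := by
  refine (WithLp.measurable_toLp 2 _).comp (measurable_pi_iff.mpr fun i => ?_)
  generalize ee n i = κ
  rcases κ with _ | o
  · exact (EuclideanSpace.proj i0 : Rv n →L[ℝ] ℝ).continuous.measurable
  · exact measurable_ws h o

lemma measurable_GG (h : Good n N eps) : Measurable (GG N eps i0) := by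
  refine (WithLp.measurable_toLp 2 _).comp (measurable_pi_iff.mpr fun i => ?_)
  generalize ee n i.2 = κ
  rcases κ with _ | o
  · exact measurable_const
  · exact measurable_gs h i.1 o

lemma GG_rpow_le (h : Good n N eps) {K : ℝ} (hK : KB n N K) {p : ℝ} (hp : 2 ≤ p) (x : Rv n) :
    ‖GG N eps i0 x‖ ^ p ≤ (2 * (1 + n * (n + 1) * K ^ 2)) ^ p * (1 + ∑' j, Tp N eps i0 p j x) := by
  have h1 : ‖GG N eps i0 x‖ = Real.sqrt (1 + ∑ a, ∑ o, (gs N eps i0 a o x) ^ 2) := by
    rw [← GG_sq, Real.sqrt_sq (norm_nonneg _)]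
  rw [h1]
  exact tot_gs_le h hK hp x

lemma memLp_uu (h : Good n N eps) (p : ℝ≥0∞) :
    MemLp (uu N eps i0) p (volume.restrict (ball (0 : Rv n) 1)) := by
  have : IsFiniteMeasure (volume.restrict (ball (0 : Rv n) 1)) :=
    isFiniteMeasure_restrict.mpr measure_ball_lt_top.ne
  refine MemLp.of_bound (measurable_uu h).aestronglyMeasurable 2 ?_
  filter_upwards [ae_restrict_mem measurableSet_ball] with x hx using uu_le h hx

lemma integrable_GG (h : Good n N eps) {p : ℝ} (hp : 2 ≤ p) (hpn : p < n) :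
    IntegrableOn (fun x => ‖GG N eps i0 x‖ ^ p) (ball (0 : Rv n) 1) := by
  obtain ⟨K, hK⟩ : ∃ K, KB n N K := pd_Vf_bound h.hN h.hn
  have : IsFiniteMeasure (volume.restrict (ball (0 : Rv n) 1)) :=
    isFiniteMeasure_restrict.mpr measure_ball_lt_top.ne
  have h1 : Integrable (fun x => (2 * (1 + n * (n + 1) * K ^ 2)) ^ p * (1 + ∑' j, Tp N eps i0 p j x))
      (volume.restrict (ball (0 : Rv n) 1)) :=
    ((integrable_const _).add (integrable_Tsum h hp hpn).integrableOn).const_mul _
  refine h1.mono' ((measurable_GG h).norm.pow_const p).aestronglyMeasurable (ae_of_all _ fun x => ?_)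
  rw [Real.norm_of_nonneg (by positivity)]
  exact GG_rpow_le h hK hp x

lemma memLp_GG (h : Good n N eps) {p : ℝ} (hp : 2 ≤ p) (hpn : p < n) :
    MemLp (GG N eps i0) (ENNReal.ofReal p) (volume.restrict (ball (0 : Rv n) 1)) := by
  rw [← integrable_norm_rpow_iff (measurable_GG h).aestronglyMeasurable
    (by rw [Ne, ENNReal.ofReal_eq_zero]; linarith) ENNReal.ofReal_ne_top,
    ENNReal.toReal_ofReal (by linarith)]
  exact integrable_GG h hp hpn

/-- the Morrey quantity tends to zero -/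
lemma morrey_tendsto (h : Good n N eps) {p : ℝ} (hp : 2 ≤ p) (hpn : p < n) {x0 : Rv n} :
    Tendsto (morrey p (GG N eps i0) x0) (𝓝[>] 0) (𝓝 0) := by
  obtain ⟨K, hK⟩ : ∃ K, KB n N K := pd_Vf_bound h.hN h.hn
  have hK0 := hK.1
  set C : ℝ := (2 * (1 + n * (n + 1) * K ^ 2)) ^ p with hC
  have hC0 : 0 ≤ C := by positivity
  have hv := vb_nonneg n
  have l1 : Tendsto (fun r : ℝ => r ^ p) (𝓝[>] 0) (𝓝 0) := by
    have h1 := (Real.continuousAt_rpow_const 0 p (Or.inr (by linarith))).tendsto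
    rw [Real.zero_rpow (by linarith)] at h1
    exact h1.mono_left nhdsWithin_le_nhds
  have l2 := tendsto_sum (i0 := i0) h hp hpn x0
  have l3 : Tendsto (fun r : ℝ => C * (vb n * r ^ p + ∑' j, r ^ (-((n:ℝ) - p)) * ∫ x in ball x0 r, Tp N eps i0 p j x))
      (𝓝[>] 0) (𝓝 0) := by
    simpa using ((l1.const_mul (vb n)).add l2).const_mul C
  refine squeeze_zero' ?_ ?_ l3
  · filter_upwards [self_mem_nhdsWithin] with r hr
    have hr' : (0:ℝ) < r := hr
    unfold morrey
    exact mul_nonneg (by positivity) (integral_nonneg fun x => by positivity)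
  · filter_upwards [self_mem_nhdsWithin] with r hr
    have hr' : (0:ℝ) < r := hr
    have : IsFiniteMeasure (volume.restrict (ball x0 r)) :=
      isFiniteMeasure_restrict.mpr measure_ball_lt_top.ne
    have i1 : IntegrableOn (fun x => C * (1 + ∑' j, Tp N eps i0 p j x)) (ball x0 r) :=
      ((integrable_const _).add (integrable_Tsum h hp hpn).integrableOn).const_mul _
    have i2 : ∫ x in ball x0 r, ‖GG N eps i0 x‖ ^ p ≤ ∫ x in ball x0 r, C * (1 + ∑' j, Tp N eps i0 p j x) := by
      refine integral_mono_of_nonneg (ae_of_all _ fun x => by positivity) i1 (ae_of_all _ fun x => ?_)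
      exact GG_rpow_le h hK hp x
    have i3 : ∫ x in ball x0 r, C * (1 + ∑' j, Tp N eps i0 p j x)
        = C * (r ^ (n:ℝ) * vb n + ∑' j, ∫ x in ball x0 r, Tp N eps i0 p j x) := by
      rw [integral_const_mul, integral_add (integrable_const _) (integrable_Tsum h hp hpn).integrableOn,
        (hasSum_Tp h hp hpn _).tsum_eq, integral_const, ← vol_ball x0 hr']
      simp
    rw [i3] at i2
    unfold morrey
    rw [one_div, ← Real.rpow_neg hr'.le]
    calc r ^ (-((n:ℝ) - p)) * ∫ x in ball x0 r, ‖GG N eps i0 x‖ ^ p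
        ≤ r ^ (-((n:ℝ) - p)) * (C * (r ^ (n:ℝ) * vb n + ∑' j, ∫ x in ball x0 r, Tp N eps i0 p j x)) := by gcongr
      _ = C * (vb n * (r ^ (-((n:ℝ) - p)) * r ^ (n:ℝ)) + r ^ (-((n:ℝ) - p)) * ∑' j, ∫ x in ball x0 r, Tp N eps i0 p j x) := by ring
      _ = _ := by
        rw [← Real.rpow_add hr', tsum_mul_left]
        congr 4
        ring

/-! ### properties of the nonlinearity -/

lemma contDiff_coord {k : ℕ} (i : Fin k) : ContDiff ℝ ∞ (fun q : Rv n × Rv k × Mat n k => q.2.1 i) :=
  (EuclideanSpace.proj i : Rv k →L[ℝ] ℝ).contDiff.comp (contDiff_fst.comp contDiff_snd)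

lemma contDiff_entry {k : ℕ} (ai : Fin n × Fin k) :
    ContDiff ℝ ∞ (fun q : Rv n × Rv k × Mat n k => q.2.2 ai) :=
  (EuclideanSpace.proj ai : Mat n k →L[ℝ] ℝ).contDiff.comp (contDiff_snd.comp contDiff_snd)

lemma contDiff_Qf (h : Good n N eps) :
    ContDiff ℝ ∞ (fun q : Rv n × Rv (n + 2) × Mat n (n + 2) => Qf N eps i0 q.1 q.2.1 q.2.2) := by
  have hn2 : 2 ≤ n := by have := h.hN; have := h.hn; omega
  rw [contDiff_euclidean]
  intro i
  change ContDiff ℝ ∞ (fun q : Rv n × Rv (n + 2) × Mat n (n + 2) => QQ N eps i0 (ee n i) q.1 q.2.1 q.2.2)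
  generalize ee n i = κ
  rcases κ with _ | o
  · exact contDiff_const
  · have hy : ∀ o' : Option (Fin n), ContDiff ℝ ∞
        (fun q : Rv n × Rv (n + 2) × Mat n (n + 2) => q.2.1 ((ee n).symm (some o'))) :=
      fun o' => contDiff_coord _
    have hz : ∀ (a : Fin n) (κ : Option (Option (Fin n))), ContDiff ℝ ∞
        (fun q : Rv n × Rv (n + 2) × Mat n (n + 2) => q.2.2 (a, (ee n).symm κ)) :=
      fun a κ => contDiff_entry _
    have hchi : ContDiff ℝ ∞ (fun q : Rv n × Rv (n + 2) × Mat n (n + 2) => chi (n + 2) q.2.1) :=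
      (chi (n + 2)).contDiff.comp (contDiff_fst.comp contDiff_snd)
    have hb : ContDiff ℝ ∞ (fun q : Rv n × Rv (n + 2) × Mat n (n + 2) => bs N eps i0 o q.1) :=
      (contDiff_bs h o).comp contDiff_fst
    have hX : ContDiff ℝ ∞ (fun q : Rv n × Rv (n + 2) × Mat n (n + 2) =>
        Xq N (fun o => q.2.1 ((ee n).symm (some o))) (fun a o => q.2.2 (a, (ee n).symm (some o)))) := by
      simp only [Xq, Ef]
      refine ContDiff.add ?_ ?_
      · exact (ContDiff.sum fun k _ => ((hy none).pow 2).pow k).mul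
          (ContDiff.sum fun a _ => (hz a (some none)).pow 2)
      · refine ContDiff.mul (ContDiff.div ?_ ?_ ?_) ?_
        · exact contDiff_const.mul ((ContDiff.sum fun i _ => (hy (some i)).pow 2).pow _)
        · exact contDiff_const.add ((contDiff_const.sub (contDiff_const.mul
            (contDiff_const.sub ((hy none).pow 2)))).pow 2)
        · intro q
          exact (Ef_pos hn2 _).ne'
        · exact ContDiff.sum fun i _ => ContDiff.sum fun a _ => (hz a (some (some i))).pow 2
    simp only [QQ]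
    refine ContDiff.add (ContDiff.mul (ContDiff.mul (contDiff_const.mul hchi) (hy o)) hX) ?_
    exact hb.mul (ContDiff.sum fun a _ => (hz a none).pow 2)

lemma QQ_bound (h : Good n N eps) (κ : Option (Option (Fin n))) (x : Rv n) (y : Rv (n + 2))
    (z : Mat n (n + 2)) :
    |QQ N eps i0 κ x y z| ≤ ((∑ o, |cc n N o|) * 3 * CX N + 1) * ‖z‖ ^ 2 := by
  have hn2 : 2 ≤ n := by have := h.hN; have := h.hn; omega
  have hCX := CX_nonneg N
  have hS : 0 ≤ ∑ o : Option (Fin n), |cc n N o| := Finset.sum_nonneg fun _ _ => abs_nonneg _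
  rcases κ with _ | o
  · simp only [QQ, abs_zero]; positivity
  · have hz : ‖z‖ ^ 2 = ∑ a, (z (a, (ee n).symm none)) ^ 2
        + ∑ a, ∑ o, (z (a, (ee n).symm (some o))) ^ 2 := by
      rw [EuclideanSpace.norm_sq_eq, Fintype.sum_prod_type]
      have e1 : ∀ a : Fin n, ∑ i, ‖z (a, i)‖ ^ 2 = ∑ κ, (z (a, (ee n).symm κ)) ^ 2 := by
        intro a
        rw [(ee n).symm.sum_comp (fun i => (z (a, i)) ^ 2)]
        refine Finset.sum_congr rfl fun i _ => ?_
        rw [Real.norm_eq_abs, sq_abs]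
      simp_rw [e1, Fintype.sum_option (f := fun κ => (z (_, (ee n).symm κ)) ^ 2)]
      rw [Finset.sum_add_distrib]
    have hz1 : 0 ≤ ∑ a, (z (a, (ee n).symm none)) ^ 2 := Finset.sum_nonneg fun _ _ => sq_nonneg _
    have hz2 : 0 ≤ ∑ a, ∑ o, (z (a, (ee n).symm (some o))) ^ 2 :=
      Finset.sum_nonneg fun _ _ => Finset.sum_nonneg fun _ _ => sq_nonneg _
    have hy : ‖y‖ ^ 2 = (y ((ee n).symm none)) ^ 2 + ∑ o, (y ((ee n).symm (some o))) ^ 2 := by
      rw [EuclideanSpace.norm_sq_eq, ← Fintype.sum_option (f := fun κ => (y ((ee n).symm κ)) ^ 2),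
        (ee n).symm.sum_comp (fun i => (y i) ^ 2)]
      refine Finset.sum_congr rfl fun i _ => ?_
      rw [Real.norm_eq_abs, sq_abs]
    have hcc : |cc n N o| ≤ ∑ o : Option (Fin n), |cc n N o| :=
      Finset.single_le_sum (f := fun o => |cc n N o|) (fun _ _ => abs_nonneg _) (Finset.mem_univ o)
    have e2 : |bs N eps i0 o x * ∑ a, (z (a, (ee n).symm none)) ^ 2| ≤ 1 * ‖z‖ ^ 2 := by
      rw [abs_mul, abs_of_nonneg hz1]
      gcongr
      · exact bs_le h o x
      · linarith
    have e3 : |- cc n N o * chi (n + 2) y * y ((ee n).symm (some o))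
        * Xq N (fun o => y ((ee n).symm (some o))) (fun a o => z (a, (ee n).symm (some o)))|
        ≤ (∑ o, |cc n N o|) * 3 * CX N * ‖z‖ ^ 2 := by
      by_cases hy3 : 3 ≤ ‖y‖
      · have : chi (n + 2) y = 0 := (chi (n + 2)).zero_of_le_dist (by simpa [chi] using hy3)
        rw [this]
        simp only [mul_zero, zero_mul, abs_zero]
        positivity
      · push Not at hy3
        have hy9 : ‖y‖ ^ 2 ≤ 9 := by nlinarith [norm_nonneg y]
        have hs : ∑ o, (y ((ee n).symm (some o))) ^ 2 ≤ 9 := by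
          nlinarith [sq_nonneg (y ((ee n).symm none))]
        have hone : ∀ o, (y ((ee n).symm (some o))) ^ 2 ≤ 9 := fun o =>
          (Finset.single_le_sum (f := fun o => (y ((ee n).symm (some o))) ^ 2)
            (fun _ _ => sq_nonneg _) (Finset.mem_univ o)).trans hs
        have hs' : ∑ i : Fin n, (y ((ee n).symm (some (some i)))) ^ 2 ≤ 9 := by
          rw [Fintype.sum_option] at hs
          nlinarith [sq_nonneg (y ((ee n).symm (some none)))]
        have hX := Xq_bound (N := N) hn2 (y := fun o => y ((ee n).symm (some o)))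
          (fun a o => z (a, (ee n).symm (some o))) (hone none) hs'
        have hchi0 : 0 ≤ chi (n + 2) y := (chi (n + 2)).nonneg
        have hchi1 : chi (n + 2) y ≤ 1 := (chi (n + 2)).le_one
        have hyo : |y ((ee n).symm (some o))| ≤ 3 := by
          have := hone o
          refine abs_le_of_sq_le_sq (by linarith) (by norm_num)
        have hX2 : Xq N (fun o => y ((ee n).symm (some o))) (fun a o => z (a, (ee n).symm (some o)))
            ≤ CX N * ‖z‖ ^ 2 := hX.2.trans (by gcongr; linarith)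
        have hX1 := hX.1
        rw [abs_mul, abs_mul, abs_mul, abs_neg, abs_of_nonneg hchi0, abs_of_nonneg hX.1]
        calc |cc n N o| * chi (n + 2) y * |y ((ee n).symm (some o))|
              * Xq N (fun o => y ((ee n).symm (some o))) (fun a o => z (a, (ee n).symm (some o)))
            ≤ (∑ o, |cc n N o|) * 1 * 3 * (CX N * ‖z‖ ^ 2) := by gcongr
          _ = _ := by ring
    calc |QQ N eps i0 (some o) x y z| ≤ _ + _ := abs_add_le _ _
      _ ≤ (∑ o, |cc n N o|) * 3 * CX N * ‖z‖ ^ 2 + 1 * ‖z‖ ^ 2 := add_le_add e3 e2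
      _ = _ := by ring

lemma norm_le_of_coord {k : ℕ} {v : Rv k} {B : ℝ} (hB : 0 ≤ B) (h : ∀ i, |v i| ≤ B) :
    ‖v‖ ≤ (k + 1) * B := by
  refine le_of_sq_le_sq ?_ (by positivity)
  rw [EuclideanSpace.norm_sq_eq]
  calc ∑ i, ‖v i‖ ^ 2 ≤ ∑ _i : Fin k, B ^ 2 := by
        refine Finset.sum_le_sum fun i _ => ?_
        rw [Real.norm_eq_abs]
        have := h i
        gcongr
    _ = k * B ^ 2 := by simp
    _ ≤ ((k + 1) * B) ^ 2 := by
        have : (0:ℝ) ≤ k := by positivity
        nlinarith [sq_nonneg B, mul_nonneg this (sq_nonneg B), mul_nonneg (mul_nonneg this this) (sq_nonneg B)]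

lemma Q_val (h : Good n N eps) {x : Rv n} (hx : x ∈ ball (0 : Rv n) 1) (o : Option (Fin n)) :
    QQ N eps i0 (some o) x (uu N eps i0 x) (GG N eps i0 x) = ∑' j, lap (Wj N eps i0 o j) x := by
  rw [identity h o x]
  unfold QQ
  have hchi : chi (n + 2) (uu N eps i0 x) = 1 := by
    refine (chi (n + 2)).one_of_mem_closedBall ?_
    rw [mem_closedBall, dist_zero_right]
    exact uu_le h hx
  have e1 : ∀ κ, (uu N eps i0 x) ((ee n).symm κ) = U N eps i0 κ x := by
    intro κ
    change U N eps i0 (ee n ((ee n).symm κ)) x = _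
    rw [Equiv.apply_symm_apply]
  have e2 : ∀ a κ, (GG N eps i0 x) (a, (ee n).symm κ) = DU N eps i0 a κ x := by
    intro a κ
    change DU N eps i0 a (ee n ((ee n).symm κ)) x = _
    rw [Equiv.apply_symm_apply]
  simp_rw [hchi, e1, e2]
  have e3 : ∑ a, (DU N eps i0 a none x) ^ 2 = 1 := by simp [DU]
  rw [e3]
  simp only [U, DU]
  ring

lemma test_zero {φ : Rv n → ℝ} (hφ : IsTest φ) {x : Rv n} (hx : x ∉ ball (0 : Rv n) 1) : φ x = 0 :=
  image_eq_zero_of_notMem_tsupport fun hc => hx (hφ.supp hc)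

lemma test_pd_zero {φ : Rv n → ℝ} (hφ : IsTest φ) (a : Fin n) {x : Rv n}
    (hx : x ∉ ball (0 : Rv n) 1) : pd a φ x = 0 := by
  have : fderiv ℝ φ x = 0 := by
    refine image_eq_zero_of_notMem_tsupport fun hc => hx (hφ.supp ?_)
    exact tsupport_fderiv_subset ℝ hc
  simp [pd, this]

lemma comp_eq (h : Good n N eps) (κ : Option (Option (Fin n))) {φ : Rv n → ℝ} (hφ : IsTest φ) :
    (∀ a, IntegrableOn (fun x => DU N eps i0 a κ x * pd a φ x) (ball (0 : Rv n) 1)) ∧
    IntegrableOn (fun x => QQ N eps i0 κ x (uu N eps i0 x) (GG N eps i0 x) * φ x) (ball (0 : Rv n) 1) ∧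
    - ∑ a, ∫ x in ball (0 : Rv n) 1, DU N eps i0 a κ x * pd a φ x
      = ∫ x in ball (0 : Rv n) 1, QQ N eps i0 κ x (uu N eps i0 x) (GG N eps i0 x) * φ x := by
  have hs := fun a => setIntegral_eq_integral_of_forall_compl_eq_zero (μ := volume) (s := ball (0 : Rv n) 1)
    (f := fun x => DU N eps i0 a κ x * pd a φ x) (fun x hx => by rw [test_pd_zero hφ a hx, mul_zero])
  simp_rw [hs]
  rcases κ with _ | o
  · have hcp : ∀ a, HasCompactSupport (pd a φ) := fun a =>
      (hφ.compact.fderiv (𝕜 := ℝ)).comp_left (g := fun L : Rv n →L[ℝ] ℝ => L (EuclideanSpace.single a 1)) (by simp)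
    have hcont : ∀ a, Continuous (pd a φ) := fun a => (contDiff_pd hφ.smooth a).continuous
    have e1 : ∀ a, ∫ x, DU N eps i0 a none x * pd a φ x = 0 := by
      intro a
      simp only [DU]
      rw [integral_const_mul]
      have := ibp (f := fun _ => (1:ℝ)) contDiff_const hφ.smooth hφ.compact a
      simp only [one_mul] at this
      rw [this]
      simp [pd]
    refine ⟨fun a => ?_, ?_, ?_⟩
    · exact (((hcont a).integrable_of_hasCompactSupport (hcp a)).const_mul _).integrableOn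
    · simp [QQ]
    · simp [e1, QQ]
  · have hw := weak_lap (i0 := i0) h o hφ.smooth hφ.compact
    have hcongr : ∀ x ∈ ball (0 : Rv n) 1, QQ N eps i0 (some o) x (uu N eps i0 x) (GG N eps i0 x) * φ x
        = (∑' j, lap (Wj N eps i0 o j) x) * φ x := fun x hx => by rw [Q_val h hx o]
    refine ⟨fun a => (hw.1 a).integrableOn, ?_, ?_⟩
    · exact (integrableOn_congr_fun hcongr measurableSet_ball).mpr hw.2.1.integrableOn
    · rw [setIntegral_congr_fun measurableSet_ball hcongr,
        setIntegral_eq_integral_of_forall_compl_eq_zero (fun x hx => by rw [test_zero hφ hx, mul_zero])]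
      simp only [DU]
      rw [hw.2.2, neg_neg]

lemma isWeakGrad (h : Good n N eps) : IsWeakGrad (uu N eps i0) (GG N eps i0) := by
  intro φ hφ a i
  rw [setIntegral_eq_integral_of_forall_compl_eq_zero
      (f := fun x => (uu N eps i0 x) i * fderiv ℝ φ x (EuclideanSpace.single a 1))
      (fun x hx => by
        have := test_pd_zero hφ a hx
        unfold pd at this
        rw [this, mul_zero]),
    setIntegral_eq_integral_of_forall_compl_eq_zero
      (f := fun x => (GG N eps i0 x) (a, i) * φ x)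
      (fun x hx => by rw [test_zero hφ hx, mul_zero])]
  change ∫ x, U N eps i0 (ee n i) x * pd a φ x = - ∫ x, DU N eps i0 a (ee n i) x * φ x
  generalize ee n i = κ
  rcases κ with _ | o
  · simp only [U, DU]
    have hf : ContDiff ℝ ∞ (fun x : Rv n => x i0) := (EuclideanSpace.proj i0 : Rv n →L[ℝ] ℝ).contDiff
    rw [ibp hf hφ.smooth hφ.compact a]
    congr 1
    refine integral_congr_ae (ae_of_all _ fun x => ?_)
    have : pd a (fun x : Rv n => x i0) x = if a = i0 then 1 else 0 := by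
      unfold pd
      have h1 : fderiv ℝ (fun x : Rv n => x i0) x = (EuclideanSpace.proj i0 : Rv n →L[ℝ] ℝ) :=
        (EuclideanSpace.proj i0 : Rv n →L[ℝ] ℝ).fderiv
      rw [h1]
      simp [eq_comm]
    simp only [this]
  · simp only [U, DU]
    exact weak_grad h o a hφ.smooth hφ.compact

lemma isTest_comp {k : ℕ} {φ : Rv n → Rv k} (hφ : IsTest φ) (i : Fin k) : IsTest (fun x => φ x i) where
  smooth := (EuclideanSpace.proj i : Rv k →L[ℝ] ℝ).contDiff.comp hφ.smooth
  compact := hφ.compact.comp_left (g := fun v : Rv k => v i) (by simp)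
  supp := (tsupport_comp_subset (g := fun v : Rv k => v i) (by simp) φ).trans hφ.supp

lemma isWeakSol (h : Good n N eps) : IsWeakSol (Qf N eps i0) (uu N eps i0) (GG N eps i0) := by
  intro φ hφ
  have hc := fun i => comp_eq (i0 := i0) h (ee n i) (isTest_comp hφ i)
  have e1 : ∀ (a : Fin n) (i : Fin (n + 2)) (x : Rv n),
      (fderiv ℝ φ x (EuclideanSpace.single a 1)) i = pd a (fun x => φ x i) x := by
    intro a i x
    unfold pd
    have h1 : HasFDerivAt (fun x => φ x i) ((EuclideanSpace.proj i : Rv (n + 2) →L[ℝ] ℝ).comp (fderiv ℝ φ x)) x :=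
      (EuclideanSpace.proj i : Rv (n + 2) →L[ℝ] ℝ).hasFDerivAt.comp x
        ((hφ.smooth.differentiable (by norm_num)) x).hasFDerivAt
    rw [h1.fderiv]
    rfl
  simp_rw [e1]
  change - ∫ x in ball 0 1, ∑ a : Fin n, ∑ i : Fin (n + 2), DU N eps i0 a (ee n i) x * pd a (fun x => φ x i) x
    = ∫ x in ball 0 1, ∑ i : Fin (n + 2), QQ N eps i0 (ee n i) x (uu N eps i0 x) (GG N eps i0 x) * φ x i
  rw [integral_finsetSum _ (fun i _ => (hc i).2.1)]
  simp_rw [← (hc _).2.2]
  rw [integral_finsetSum _ (fun a _ => integrable_finsetSum _ fun i _ => (hc i).1 a)]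
  simp_rw [integral_finsetSum Finset.univ (fun i _ => (hc i).1 _)]
  rw [Finset.sum_comm, Finset.sum_neg_distrib]

/-- no continuous representative on the half ball -/
lemma not_hasContRep (h : Good n N eps) : ¬ HasContRep (uu N eps i0) := by
  rintro ⟨v, hv, hae⟩
  set i1 := (ee n).symm (some none) with hi1
  set w : Rv n → ℝ := fun x => v x i1 with hw
  have hwc : ContinuousOn w (ball 0 (1/2)) :=
    (EuclideanSpace.proj i1 : Rv (n + 2) →L[ℝ] ℝ).continuous.comp_continuousOn hv
  have hae' : w =ᵐ[volume.restrict (ball (0 : Rv n) (1/2))] ws N eps i0 none := by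
    filter_upwards [hae] with x hx
    rw [hw]
    simp only [← hx]
    change U N eps i0 (ee n ((ee n).symm (some none))) x = _
    rw [Equiv.apply_symm_apply]
    rfl
  have hsub : ∀ {V : Set (Rv n)}, V ⊆ ball (0 : Rv n) (1/2) → w =ᵐ[volume.restrict V] ws N eps i0 none :=
    fun hV => ae_restrict_of_ae_restrict_of_subset hV hae'
  have c0 : ContinuousAt w 0 := hwc.continuousAt (ball_mem_nhds _ (by norm_num))
  -- `w` vanishes on the left half of the ball
  have h1 : Set.EqOn w (fun _ => 0) (ball (0 : Rv n) (1/2) ∩ {x | x i0 < 0}) := by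
    have ho : IsOpen {x : Rv n | x i0 < 0} :=
      isOpen_lt (EuclideanSpace.proj i0 : Rv n →L[ℝ] ℝ).continuous continuous_const
    refine Measure.eqOn_open_of_ae_eq (μ := volume) ?_ (isOpen_ball.inter ho)
      (hwc.mono Set.inter_subset_left) continuousOn_const
    filter_upwards [hsub (Set.inter_subset_left (t := {x : Rv n | x i0 < 0})),
      ae_restrict_mem (isOpen_ball.inter ho).measurableSet] with x hx hx2
    rw [hx]
    unfold ws
    refine tsum_out (supp_W none) fun j => ?_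
    by_contra hcon
    push Not at hcon
    have h3 := (coord_bounds hcon).1
    have h4 : x i0 < 0 := hx2.2
    have h5 := rad_pos j
    linarith
  have h2 : w 0 = 0 := by
    have l1 : Tendsto (fun t : ℝ => (EuclideanSpace.single i0 (-t) : Rv n)) (𝓝[>] 0) (𝓝 0) := by
      have hcont : Continuous (fun t : ℝ => (EuclideanSpace.single i0 (-t) : Rv n)) := by
        have : (fun t : ℝ => (EuclideanSpace.single i0 (-t) : Rv n)) = fun t => (-t) • EuclideanSpace.single i0 1 := by
          ext t i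
          simp only [PiLp.single_apply, PiLp.smul_apply, smul_eq_mul]
          split_ifs <;> simp
        rw [this]
        fun_prop
      have := hcont.tendsto 0
      simp only [neg_zero] at this
      have e0 : (EuclideanSpace.single i0 (0:ℝ) : Rv n) = 0 := by simp
      rw [e0] at this
      exact this.mono_left nhdsWithin_le_nhds
    have l2 := c0.tendsto.comp l1
    have l3 : Tendsto (w ∘ fun t : ℝ => (EuclideanSpace.single i0 (-t) : Rv n)) (𝓝[>] 0) (𝓝 0) := by
      refine tendsto_const_nhds.congr' ?_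
      filter_upwards [self_mem_nhdsWithin, mem_nhdsWithin_of_mem_nhds (Iio_mem_nhds (show (0:ℝ) < 1/2 by norm_num))] with t ht ht2
      have ht' : (0:ℝ) < t := ht
      have ht2' : t < 1/2 := ht2
      refine (h1 ⟨?_, ?_⟩).symm
      · simp [abs_of_pos ht']
        linarith
      · simpa using ht'
    exact tendsto_nhds_unique l2 l3
  -- `w` equals one at the centres
  have h3 : ∀ j, w (cen i0 j) = 1 := by
    intro j
    have hrj := rad_pos j
    have hrj2 := rad_le j
    have hsubj : ball (cen i0 j) (rad j) ⊆ ball (0 : Rv n) (1/2) := by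
      refine ball_subset_ball' ?_
      rw [dist_zero_right, norm_cen]
      linarith
    have h4 : Set.EqOn w (Wj N eps i0 none j) (ball (cen i0 j) (rad j)) := by
      refine Measure.eqOn_open_of_ae_eq (μ := volume) ?_ isOpen_ball (hwc.mono hsubj)
        (contDiff_Wj h none j).continuous.continuousOn
      filter_upwards [hsub hsubj, ae_restrict_mem measurableSet_ball] with x hx hx2
      rw [hx]
      unfold ws
      refine tsum_in (supp_W none) ?_
      have : dist x (cen i0 j) < rad j := hx2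
      rw [dist_eq_norm] at this
      exact this.le
    rw [h4 (mem_ball_self hrj)]
    have hN := h.hN
    have hpos := h.pos j
    have hf : f0 n 0 = 1 := (f0 n).one_of_mem_closedBall (by simp [f0])
    unfold Wj Wg Vf
    rw [sub_self, smul_zero, hf, one_mul]
    simp only [Bf, bub, kap, Pf, mex, Rf, one_mul]
    rw [norm_zero]
    have e0 : ((0:ℝ) ^ 2) ^ N = 0 := by
      rw [← pow_mul]
      exact zero_pow (by omega)
    rw [e0, add_zero, ← Real.rpow_natCast, ← Real.rpow_natCast, ← Real.rpow_mul hpos.le, ← Real.rpow_add hpos]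
    push_cast
    rw [show (N:ℝ) + 2 * N * -(1/2) = 0 by ring, Real.rpow_zero]
  have l4 : Tendsto (fun j => cen i0 j) atTop (𝓝 (0 : Rv n)) := by
    rw [tendsto_zero_iff_norm_tendsto_zero]
    have : (fun j => ‖cen i0 j‖) = fun j => (1/4 : ℝ) ^ (j + 1) := by
      ext j
      rw [norm_cen]
      unfold rad
      ring
    rw [this]
    exact (tendsto_pow_atTop_nhds_zero_of_lt_one (by norm_num) (by norm_num)).comp (tendsto_add_atTop_nat 1)
  have l5 := c0.tendsto.comp l4
  have l6 : Tendsto (w ∘ fun j => cen i0 j) atTop (𝓝 1) := by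
    have : (w ∘ fun j => cen i0 j) = fun _ => 1 := by
      ext j; exact h3 j
    rw [this]
    exact tendsto_const_nhds
  have := tendsto_nhds_unique l5 l6
  rw [h2] at this
  norm_num at this

end

/-- For every `n ≥ 3` there are a smooth quadratic nonlinearity `Q` and a bounded weak solution `u` of
`Δu = Q(x, u, ∇u)` on the unit ball, in `W^{1,p}` for all `p < n`, all of whose Morrey quantities
`r^{p-n} ∫_{B_r(x₀)} |∇u|^p`, `2 ≤ p < n`, tend to zero at every point, but which has no continuous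
(in particular no Hölder continuous) representative on the half ball. -/
theorem result (n : ℕ) (hn : 3 ≤ n) :
    ∃ (k : ℕ) (Q : Rv n → Rv k → Mat n k → Rv k) (u : Rv n → Rv k) (G : Rv n → Mat n k),
      1 ≤ k ∧
      ContDiff ℝ ∞ (fun q : Rv n × Rv k × Mat n k => Q q.1 q.2.1 q.2.2) ∧
      (∃ C : ℝ, 0 < C ∧ ∀ x y z, ‖Q x y z‖ ≤ C * ‖z‖ ^ 2) ∧
      (∀ x ∈ ball (0 : Rv n) 1, ‖u x‖ ≤ 2) ∧
      (∀ p : ℝ, 2 ≤ p → p < n → MemW1p (ENNReal.ofReal p) u G) ∧
      IsWeakSol Q u G ∧
      (∀ p : ℝ, 2 ≤ p → p < n → ∀ x0 ∈ ball (0 : Rv n) 1,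
        Tendsto (morrey p G x0) (𝓝[>] 0) (𝓝 0)) ∧
      ¬ HasContRep u ∧ ¬ HasHolderRep u := by
  obtain ⟨N, rfl⟩ : ∃ N, n = N + 2 := ⟨n - 2, by omega⟩
  obtain ⟨eps, h⟩ := exists_good (n := N + 2) (N := N) (by omega) rfl
  set i0 : Fin (N + 2) := ⟨0, by omega⟩
  have hnc := not_hasContRep (i0 := i0) h
  refine ⟨N + 2 + 2, Qf N eps i0, uu N eps i0, GG N eps i0, by omega, contDiff_Qf h, ?_,
    fun x hx => uu_le h hx, fun p hp hpn => ⟨memLp_uu h _, memLp_GG h hp hpn, isWeakGrad h⟩,
    isWeakSol h, fun p hp hpn x0 _ => morrey_tendsto h hp hpn, hnc, ?_⟩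
  · refine ⟨((N + 2 + 2 : ℕ) + 1) * ((∑ o, |cc (N + 2) N o|) * 3 * CX N + 1), ?_, ?_⟩
    · have h1 := CX_nonneg N
      have h2 : 0 ≤ ∑ o : Option (Fin (N + 2)), |cc (N + 2) N o| := Finset.sum_nonneg fun _ _ => abs_nonneg _
      positivity
    · intro x y z
      have h1 := CX_nonneg N
      have h2 : 0 ≤ ∑ o : Option (Fin (N + 2)), |cc (N + 2) N o| := Finset.sum_nonneg fun _ _ => abs_nonneg _
      have := norm_le_of_coord (v := Qf N eps i0 x y z)
        (B := ((∑ o, |cc (N + 2) N o|) * 3 * CX N + 1) * ‖z‖ ^ 2) (by positivity)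
        (fun i => QQ_bound h (ee _ i) x y z)
      calc _ ≤ _ := this
        _ = _ := by ring
  · rintro ⟨v, ⟨C, α, hα, _, hv⟩, hae⟩
    exact hnc ⟨v, hv.continuousOn hα, hae⟩

end Pool.Agent.Results.MP_105042_an.VanishingMorreyFails
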